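import Pool.Agent.Lib_helper41.TK.Defs2
import Pool.Agent.Lib_helper68.KSLF.TYB
import Pool.Agent.Lib_helper68.KSLF.HBI
import Pool.Agent.Lib_helper68.LEV.MRT

/-! TK, block FF. -/

set_option autoImplicit false

namespace Pool.Agent.TK

open Pool.Agent.LEV Pool.Agent.LVB Pool.Agent.KSL
open Pool.Agent.LK (PQ)
open Pool.Agent.FG61 (mu phi cc ff AA Lam)
open Complex MeasureTheory Filter Topology UpperHalfPlane ModularGroup ProbabilityTheory
open scoped MatrixGroups Modular ENNReal ModularForm ComplexConjugate ContDiff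

theorem ff_chi {q : ℕ} [NeZero q] (χ : DirichletCharacter ℂ q) (m : ℕ) :
    |(χ (m : ZMod q)).re| ≤ 1 :=
  (Complex.abs_re_le_norm _).trans (DirichletCharacter.norm_le_one χ _)

/-- the twisted inverse of the Euler product over `J` -/
noncomputable def ffB (c : ℕ → ℝ) (J : Finset ℕ) (x : ℕ → ℝ) : ℝ :=
  ∏ p ∈ J, (1 - c p * x p / Real.sqrt p + 1 / p)

theorem ff_hp1 {p : ℕ} (hp : p.Prime) (c : ℝ) :
    HPoly {p} p (fun x => 1 - c * x p / Real.sqrt p + 1 / (p : ℝ)) := by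
  have h1 : HPoly {p} p (Um 1) := HPO_single le_rfl hp.one_le (by simp)
  have h2 : HPoly {p} p (Um p) := HPO_single hp.one_le le_rfl (by rw [hp.primeFactors])
  have h3 := hpoly_add_pr (hpoly_smul_pr h1 (1 + 1 / (p : ℝ))) (hpoly_smul_pr h2 (-(c / Real.sqrt p)))
  obtain ⟨c', hc, h⟩ := h3
  refine ⟨c', hc, fun x => ?_⟩
  rw [← h x]
  beta_reduce
  rw [HPO_um_one]
  have h4 : Um p x = x p := by
    have := HPO_um_pow hp 1 x
    rw [pow_one] at this
    rw [this]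
    rfl
  rw [h4]
  ring

theorem ff_hp (c : ℕ → ℝ) (I : Finset ℕ) (hI : ∀ p ∈ I, p.Prime) :
    HPoly I (∏ p ∈ I, p) (ffB c I) := by
  classical
  induction I using Finset.induction_on with
  | empty =>
    obtain ⟨b, hb, h⟩ := HPO_single (I := (∅ : Finset ℕ)) (X := 1) (m := 1) le_rfl le_rfl (by simp)
    refine ⟨b, by simpa using hb, fun x => ?_⟩
    have h2 := h x
    rw [HPO_um_one] at h2
    simpa [ffB] using h2
  | insert p s hps ih =>
    have h1 := ih (fun q hq => hI q (Finset.mem_insert_of_mem hq))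
    have hp := hI p (Finset.mem_insert_self _ _)
    have h2 := hpoly_mul (I := {p}) (I' := s) (by simpa using hp)
      (fun q hq => hI q (Finset.mem_insert_of_mem hq)) (ff_hp1 hp (c p)) h1
    rw [Finset.prod_insert hps]
    have h3 : ({p} : Finset ℕ) ∪ s = insert p s := by rw [Finset.insert_eq]
    rw [h3] at h2
    obtain ⟨b, hb, h⟩ := h2
    refine ⟨b, hb, fun x => ?_⟩
    rw [← h x]
    unfold ffB
    rw [Finset.prod_insert hps]

theorem ff_mom {I : Finset ℕ} {P : Measure (ℕ → ℝ)} (hP : IsST I P) {p : ℕ} (hp : p ∈ I)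
    (a b d : ℝ) : ∫ x, (a + b * x p + d * x p ^ 2) ∂P = a + d := by
  have := hP.prob
  have m1 : ∫ x, x p ∂P = 0 := by
    have := hP.mom p hp 1
    simpa [Uu] using this
  have m2 : ∫ x, x p ^ 2 ∂P = 1 := by
    have h := hP.mom p hp 2
    have h1 : ∀ x : ℕ → ℝ, Uu (x p) 2 = x p ^ 2 - 1 := by
      intro x
      show x p * Uu (x p) 1 - Uu (x p) 0 = _
      show x p * x p - 1 = _
      ring
    simp_rw [h1] at h
    rw [integral_sub (tyb_intf hP hp (φ := fun y => y ^ 2) (by fun_prop)) (integrable_const _)] at h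
    simp at h
    linarith
  have i1 : Integrable (fun x : ℕ → ℝ => x p) P := tyb_intf hP hp (φ := fun y => y) continuous_id
  have i2 : Integrable (fun x : ℕ → ℝ => x p ^ 2) P :=
    tyb_intf hP hp (φ := fun y => y ^ 2) (by fun_prop)
  have i3 : Integrable (fun x : ℕ → ℝ => a + b * x p) P := (integrable_const _).add (i1.const_mul _)
  rw [integral_add i3 (i2.const_mul _),
    integral_add (integrable_const _) (i1.const_mul _), integral_const_mul, integral_const_mul,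
    m1, m2]
  simp

theorem ff_prod {I : Finset ℕ} {P : Measure (ℕ → ℝ)} (hP : IsST I P) (φ : ℕ → ℝ → ℝ)
    (hφ : ∀ p ∈ I, Continuous (φ p)) :
    ∫ x, ∏ p ∈ I, φ p (x p) ∂P = ∏ p ∈ I, ∫ x, φ p (x p) ∂P := by
  have := hP.prob
  have h := hP.ind.integral_fun_prod_comp (f := fun (p : I) (y : ℝ) => φ p y)
    (fun p => (measurable_pi_apply _).aemeasurable)
    (fun p => (hφ p p.2).aestronglyMeasurable)
  have h1 : ∀ x : ℕ → ℝ, ∏ p ∈ I, φ p (x p) = ∏ p : I, φ p (x p) := fun x =>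
    (Finset.prod_coe_sort I (fun p => φ p (x p))).symm
  simp_rw [h1]
  rw [h]
  exact Finset.prod_coe_sort I (fun p => ∫ x, φ p (x p) ∂P)

theorem ff_int {I : Finset ℕ} {P : Measure (ℕ → ℝ)} (hP : IsST I P) (φ : ℕ → ℝ → ℝ)
    (hφ : ∀ p ∈ I, Continuous (φ p)) {C : ℝ}
    (hb : ∀ p ∈ I, ∀ y : ℝ, |y| ≤ 2 → |φ p y| ≤ C) :
    Integrable (fun x : ℕ → ℝ => ∏ p ∈ I, φ p (x p)) P := by
  have := hP.prob
  refine Integrable.of_bound (Measurable.aestronglyMeasurable ?_) (C ^ I.card) ?_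
  · exact Finset.measurable_prod I fun p hp => (hφ p hp).measurable.comp (measurable_pi_apply p)
  · filter_upwards [hP.bdd] with x hx
    rw [Real.norm_eq_abs, Finset.abs_prod]
    exact (Finset.prod_le_prod (fun p _ => abs_nonneg _) fun p hp => hb p hp _ (hx p hp)).trans
      (le_of_eq (by rw [Finset.prod_const]))

theorem ff_sq {c : ℕ → ℝ} (hc : ∀ p, |c p| ≤ 1) {I : Finset ℕ} (hI : ∀ p ∈ I, p.Prime)
    {P : Measure (ℕ → ℝ)} (hP : IsST I P) :
    ∫ x, ffB c I x ^ 2 ∂P ≤ Real.exp (4 * ∑ p ∈ I, 1 / (p : ℝ)) := by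
  have e : ∀ x : ℕ → ℝ, ffB c I x ^ 2 = ∏ p ∈ I, (1 - c p * x p / Real.sqrt p + 1 / (p : ℝ)) ^ 2 := by
    intro x
    unfold ffB
    rw [Finset.prod_pow]
  simp_rw [e]
  rw [ff_prod hP (fun p y => (1 - c p * y / Real.sqrt p + 1 / (p : ℝ)) ^ 2)
    (fun p _ => by fun_prop), Finset.mul_sum, Real.exp_sum]
  refine Finset.prod_le_prod (fun p _ => integral_nonneg fun x => sq_nonneg _) fun p hp => ?_
  have hpp := hI p hp
  have hp0 : (0 : ℝ) < p := by exact_mod_cast hpp.pos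
  have hp1 : (1 : ℝ) ≤ p := by exact_mod_cast hpp.one_le
  have hs : Real.sqrt p ^ 2 = p := Real.sq_sqrt hp0.le
  have hs0 : 0 < Real.sqrt p := Real.sqrt_pos.mpr hp0
  have h1 : ∀ x : ℕ → ℝ, (1 - c p * x p / Real.sqrt p + 1 / (p : ℝ)) ^ 2 =
      (1 + 1 / (p : ℝ)) ^ 2 + (-(2 * (1 + 1 / (p : ℝ)) * c p / Real.sqrt p)) * x p +
        (c p ^ 2 / (p : ℝ)) * x p ^ 2 := by
    intro x
    have h2 : (c p * x p / Real.sqrt p) ^ 2 = (c p ^ 2 / (p : ℝ)) * x p ^ 2 := by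
      rw [div_pow, hs]; ring
    calc (1 - c p * x p / Real.sqrt p + 1 / (p : ℝ)) ^ 2 =
          (1 + 1 / (p : ℝ)) ^ 2 - 2 * (1 + 1 / (p : ℝ)) * (c p * x p / Real.sqrt p) +
            (c p * x p / Real.sqrt p) ^ 2 := by ring
      _ = _ := by rw [h2]; ring
  simp_rw [h1]
  rw [ff_mom hP hp]
  have hc2 : c p ^ 2 ≤ 1 := by
    rw [← sq_abs]
    exact pow_le_one₀ (abs_nonneg _) (hc p)
  have h2 : 1 / (p : ℝ) ^ 2 ≤ 1 / (p : ℝ) := by
    apply one_div_le_one_div_of_le (by linarith)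
    nlinarith
  have h3 : c p ^ 2 / (p : ℝ) ≤ 1 / (p : ℝ) := div_le_div_of_nonneg_right hc2 hp0.le
  have h4 : (1 + 1 / (p : ℝ)) ^ 2 = 1 + 2 * (1 / (p : ℝ)) + 1 / (p : ℝ) ^ 2 := by ring
  have h5 : (1 + 1 / (p : ℝ)) ^ 2 + c p ^ 2 / (p : ℝ) ≤ 4 * (1 / (p : ℝ)) + 1 := by
    rw [h4]
    linarith
  exact h5.trans (Real.add_one_le_exp _)

/-- the two local bounds -/
theorem ff_t {t r : ℝ} (ht : |t| ≤ 1 / 2) (hr : 0 ≤ r) :
    Real.exp t * (1 - t + r)⁻¹ ≤ 1 + 2 * t + 6 * t ^ 2 ∧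
    Real.exp (-t) * (1 - t + r)⁻¹ ≤ 1 + 6 * t ^ 2 := by
  obtain ⟨h1, h2⟩ := abs_le.mp ht
  have hd : 0 < 1 - t + r := by linarith
  have ht2 : 0 ≤ t ^ 2 := sq_nonneg t
  have h3 : (1 - t + r)⁻¹ ≤ 1 + t + 2 * t ^ 2 := by
    rw [inv_le_iff_one_le_mul₀ hd]
    have h4 : (1 + t + 2 * t ^ 2) * (1 - t + r) = 1 + t ^ 2 * (1 - 2 * t) +
        (1 + t + 2 * t ^ 2) * r := by ring
    rw [h4]
    have h5 : 0 ≤ t ^ 2 * (1 - 2 * t) := mul_nonneg ht2 (by linarith)
    have h6 : 0 ≤ (1 + t + 2 * t ^ 2) * r := mul_nonneg (by linarith) hr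
    linarith
  have h4 := Real.abs_exp_sub_one_sub_id_le (x := t) (by linarith)
  have h5 := Real.abs_exp_sub_one_sub_id_le (x := -t) (by rw [abs_neg]; linarith)
  have h6 : Real.exp t ≤ 1 + t + t ^ 2 := by have := (abs_le.mp h4).2; linarith
  have h7 : Real.exp (-t) ≤ 1 - t + t ^ 2 := by
    have := (abs_le.mp h5).2
    have h8 : (-t) ^ 2 = t ^ 2 := by ring
    rw [h8] at this
    linarith
  have h8 : 0 < (1 - t + r)⁻¹ := inv_pos.mpr hd
  constructor
  · refine (mul_le_mul h6 h3 h8.le (by linarith)).trans ?_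
    have h9 : 1 + 2 * t + 6 * t ^ 2 - (1 + t + t ^ 2) * (1 + t + 2 * t ^ 2) =
        t ^ 2 * ((1 - 2 * t) * (2 + t)) := by ring
    have h10 : 0 ≤ t ^ 2 * ((1 - 2 * t) * (2 + t)) :=
      mul_nonneg ht2 (mul_nonneg (by linarith) (by linarith))
    linarith
  · refine (mul_le_mul h7 h3 h8.le (by linarith)).trans ?_
    have h9 : 1 + 6 * t ^ 2 - (1 - t + t ^ 2) * (1 + t + 2 * t ^ 2) =
        t ^ 2 * (4 + t - 2 * t ^ 2) := by ring
    have h11 : t ^ 2 ≤ 1 := by nlinarith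
    have h10 : 0 ≤ t ^ 2 * (4 + t - 2 * t ^ 2) := mul_nonneg ht2 (by linarith)
    linarith

theorem ff_D {n q : ℕ} (h : Real.log (Real.log n) ≤ zN n) (g : ℕ → ℝ) :
    ∏ p ∈ (IZ n).filter (fun p => p ∣ q), g p =
      (∏ p ∈ (I0 n).filter (fun p => p ∣ q), g p) * ∏ p ∈ (IN n).filter (fun p => p ∣ q), g p := by
  have h1 : (IZ n).filter (fun p => p ∣ q) =
      (I0 n).filter (fun p => p ∣ q) ∪ (IN n).filter (fun p => p ∣ q) := by
    ext p
    unfold IZ I0 IN zz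
    simp only [Finset.mem_filter, Finset.mem_Icc, Finset.mem_union]
    constructor
    · rintro ⟨⟨⟨h1, h2⟩, h3⟩, h4⟩
      by_cases h5 : Real.log (Real.log n) < p
      · exact Or.inr ⟨⟨⟨h1, h2⟩, h3, h5⟩, h4⟩
      · exact Or.inl ⟨⟨⟨h1, Nat.le_floor (not_lt.1 h5)⟩, h3⟩, h4⟩
    · rintro (⟨⟨⟨h1, h2⟩, h3⟩, h4⟩ | ⟨⟨⟨h1, h2⟩, h3, h5⟩, h4⟩)
      · exact ⟨⟨⟨h1, h2.trans (Nat.floor_le_floor h)⟩, h3⟩, h4⟩
      · exact ⟨⟨⟨h1, h2⟩, h3⟩, h4⟩
  have h2 : Disjoint ((I0 n).filter (fun p => p ∣ q)) ((IN n).filter (fun p => p ∣ q)) := by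
    rw [Finset.disjoint_left]
    intro p hp hp'
    unfold I0 at hp
    unfold IN at hp'
    simp only [Finset.mem_filter, Finset.mem_Icc] at hp hp'
    have h3 : (p : ℝ) ≤ Real.log (Real.log n) :=
      (Nat.le_floor_iff' (by omega : p ≠ 0)).mp hp.1.1.2
    linarith [hp'.1.2.2]
  rw [h1, Finset.prod_union h2]

theorem ff_E {E : Finset ℕ} (hE : ∀ p ∈ E, 16 ≤ p) (y : ℕ → ℝ) (hy : ∀ p ∈ E, |y p| ≤ 2) :
    Real.exp |∑ p ∈ E, y p / Real.sqrt p| * ∏ p ∈ E, er p (y p) ≤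
      ∏ p ∈ E, (1 + 2 * (y p / Real.sqrt p) + 6 * (y p / Real.sqrt p) ^ 2) +
      ∏ p ∈ E, (1 + 6 * (y p / Real.sqrt p) ^ 2) ∧ 0 < ∏ p ∈ E, er p (y p) := by
  have ht : ∀ p ∈ E, |y p / Real.sqrt p| ≤ 1 / 2 := by
    intro p hp
    have h1 : (16 : ℝ) ≤ p := by exact_mod_cast hE p hp
    have h2 : 4 ≤ Real.sqrt p := Real.le_sqrt_of_sq_le (by linarith)
    rw [abs_div, abs_of_pos (by linarith : 0 < Real.sqrt p), div_le_iff₀ (by linarith)]
    have := hy p hp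
    linarith
  have her : ∀ p ∈ E, 0 < er p (y p) := by
    intro p hp
    unfold er
    apply inv_pos.mpr
    have := (abs_le.mp (ht p hp)).2
    have h3 : (0 : ℝ) ≤ 1 / p := by positivity
    linarith
  have hd : 0 < ∏ p ∈ E, er p (y p) := Finset.prod_pos her
  refine ⟨?_, hd⟩
  set S := ∑ p ∈ E, y p / Real.sqrt p with hS
  have h1 : Real.exp |S| ≤ Real.exp S + Real.exp (-S) := by
    rcases abs_cases S with ⟨h, _⟩ | ⟨h, _⟩ <;> rw [h]
    · linarith [Real.exp_pos (-S)]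
    · linarith [Real.exp_pos S]
  have h2 : Real.exp S * ∏ p ∈ E, er p (y p) =
      ∏ p ∈ E, (Real.exp (y p / Real.sqrt p) * er p (y p)) := by
    rw [hS, Real.exp_sum, Finset.prod_mul_distrib]
  have h3 : Real.exp (-S) * ∏ p ∈ E, er p (y p) =
      ∏ p ∈ E, (Real.exp (-(y p / Real.sqrt p)) * er p (y p)) := by
    rw [hS, ← Finset.sum_neg_distrib, Real.exp_sum, Finset.prod_mul_distrib]
  calc Real.exp |S| * ∏ p ∈ E, er p (y p) ≤
        (Real.exp S + Real.exp (-S)) * ∏ p ∈ E, er p (y p) :=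
        mul_le_mul_of_nonneg_right h1 hd.le
    _ = ∏ p ∈ E, (Real.exp (y p / Real.sqrt p) * er p (y p)) +
        ∏ p ∈ E, (Real.exp (-(y p / Real.sqrt p)) * er p (y p)) := by
        rw [add_mul, h2, h3]
    _ ≤ _ := by
        refine add_le_add ?_ ?_
        · refine Finset.prod_le_prod (fun p hp => (mul_pos (Real.exp_pos _) (her p hp)).le)
            fun p hp => ?_
          exact (ff_t (ht p hp) (by positivity : (0 : ℝ) ≤ 1 / p)).1
        · refine Finset.prod_le_prod (fun p hp => (mul_pos (Real.exp_pos _) (her p hp)).le)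
            fun p hp => ?_
          exact (ff_t (ht p hp) (by positivity : (0 : ℝ) ≤ 1 / p)).2

/-- the pointwise bound -/
theorem ff_pt {n q : ℕ} (A₁ : ℕ) (h : Real.log (Real.log n) ≤ zN n)
    (h16 : 16 ≤ Real.log (Real.log n)) (c x y : ℕ → ℝ)
    (hy : ∀ p ∈ (IZ n).filter (fun p => p ∣ q), |y p| ≤ 2) :
    |Bz A₁ n (fun p => if p ∣ q then y p else c p * x p) *
        ∏ p ∈ (IZ n).filter (fun p => p ∣ q), er p (y p)| ≤
      (|ffB c ((I0 n).filter (fun p => ¬ p ∣ q)) x| * (Real.exp (HB (IN n) / 2) *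
        Real.exp |∑ p ∈ (IN n).filter (fun p => ¬ p ∣ q), c p * x p / Real.sqrt p|)) *
      (∏ p ∈ (IN n).filter (fun p => p ∣ q),
          (1 + 2 * (y p / Real.sqrt p) + 6 * (y p / Real.sqrt p) ^ 2) +
        ∏ p ∈ (IN n).filter (fun p => p ∣ q), (1 + 6 * (y p / Real.sqrt p) ^ 2)) := by
  have hsub0 : ∀ p ∈ (I0 n).filter (fun p => p ∣ q), p ∈ (IZ n).filter (fun p => p ∣ q) := by
    intro p hp
    unfold I0 at hp
    unfold IZ zz
    simp only [Finset.mem_filter, Finset.mem_Icc] at hp ⊢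
    exact ⟨⟨⟨hp.1.1.1, hp.1.1.2.trans (Nat.floor_le_floor h)⟩, hp.1.2⟩, hp.2⟩
  have hsub1 : ∀ p ∈ (IN n).filter (fun p => p ∣ q), p ∈ (IZ n).filter (fun p => p ∣ q) ∧
      16 ≤ p := by
    intro p hp
    unfold IN at hp
    unfold IZ zz
    simp only [Finset.mem_filter, Finset.mem_Icc] at hp ⊢
    refine ⟨⟨⟨hp.1.1, hp.1.2.1⟩, hp.2⟩, ?_⟩
    have h1 : (16 : ℝ) < p := lt_of_le_of_lt h16 hp.1.2.2
    have h2 : (16 : ℕ) < p := by exact_mod_cast h1
    omega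
  obtain ⟨hE1, hE2⟩ := ff_E (E := (IN n).filter (fun p => p ∣ q)) (fun p hp => (hsub1 p hp).2) y
    (fun p hp => hy p (hsub1 p hp).1)
  have e1 : ∏ p ∈ I0 n, (1 - (if p ∣ q then y p else c p * x p) / Real.sqrt p + 1 / (p : ℝ)) =
      (∏ p ∈ (I0 n).filter (fun p => p ∣ q), (1 - y p / Real.sqrt p + 1 / (p : ℝ))) *
        ffB c ((I0 n).filter (fun p => ¬ p ∣ q)) x := by
    rw [← Finset.prod_filter_mul_prod_filter_not (I0 n) (fun p => p ∣ q)]
    unfold ffB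
    refine congrArg₂ (· * ·) (Finset.prod_congr rfl fun p hp => ?_)
      (Finset.prod_congr rfl fun p hp => ?_)
    · rw [if_pos (Finset.mem_filter.1 hp).2]
    · rw [if_neg (Finset.mem_filter.1 hp).2]
  have e2 : PB (IN n) (fun p => if p ∣ q then y p else c p * x p) =
      ∑ p ∈ (IN n).filter (fun p => p ∣ q), y p / Real.sqrt p +
        ∑ p ∈ (IN n).filter (fun p => ¬ p ∣ q), c p * x p / Real.sqrt p := by
    unfold PB
    rw [← Finset.sum_filter_add_sum_filter_not (IN n) (fun p => p ∣ q)]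
    refine congrArg₂ (· + ·) (Finset.sum_congr rfl fun p hp => ?_)
      (Finset.sum_congr rfl fun p hp => ?_)
    · beta_reduce
      rw [if_pos (Finset.mem_filter.1 hp).2]
    · beta_reduce
      rw [if_neg (Finset.mem_filter.1 hp).2]
  have e3 : (∏ p ∈ (I0 n).filter (fun p => p ∣ q), (1 - y p / Real.sqrt p + 1 / (p : ℝ))) *
      ∏ p ∈ (I0 n).filter (fun p => p ∣ q), er p (y p) = 1 := by
    rw [← Finset.prod_mul_distrib]
    refine Finset.prod_eq_one fun p hp => ?_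
    unfold er
    refine mul_inv_cancel₀ (ne_of_gt ?_)
    have hpp : p.Prime := by
      unfold I0 at hp
      exact (Finset.mem_filter.1 (Finset.mem_filter.1 hp).1).2
    have hp0 : (0 : ℝ) < p := by exact_mod_cast hpp.pos
    have hp1 : (1 : ℝ) < p := by exact_mod_cast hpp.one_lt
    have hs : Real.sqrt p ^ 2 = p := Real.sq_sqrt hp0.le
    have hs1 : 1 < Real.sqrt p := by
      rw [Real.lt_sqrt (by norm_num)]
      linarith
    have hy2 := (abs_le.mp (hy p (hsub0 p hp))).2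
    have h3 : 1 / (p : ℝ) = (1 / Real.sqrt p) ^ 2 := by rw [div_pow, hs, one_pow]
    have h4 : y p / Real.sqrt p ≤ 2 * (1 / Real.sqrt p) := by
      rw [mul_one_div]
      exact div_le_div_of_nonneg_right hy2 (by linarith)
    have h5 : 0 < 1 - 1 / Real.sqrt p := by
      have : 1 / Real.sqrt p < 1 := by
        rw [div_lt_one (by linarith)]
        exact hs1
      linarith
    rw [h3]
    nlinarith
  have e4 : Bz A₁ n (fun p => if p ∣ q then y p else c p * x p) *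
        ∏ p ∈ (IZ n).filter (fun p => p ∣ q), er p (y p) =
      ffB c ((I0 n).filter (fun p => ¬ p ∣ q)) x * (Real.exp (HB (IN n) / 2) *
        ex (A₁ * ⌈Real.log (Real.log n)⌉₊) (-(∑ p ∈ (IN n).filter (fun p => p ∣ q), y p / Real.sqrt p +
        ∑ p ∈ (IN n).filter (fun p => ¬ p ∣ q), c p * x p / Real.sqrt p))) *
        ∏ p ∈ (IN n).filter (fun p => p ∣ q), er p (y p) := by
    have h5 : Bz A₁ n (fun p => if p ∣ q then y p else c p * x p) =
        (∏ p ∈ I0 n, (1 - (if p ∣ q then y p else c p * x p) / Real.sqrt p + 1 / (p : ℝ))) *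
          (Real.exp (HB (IN n) / 2) * ex (A₁ * ⌈Real.log (Real.log n)⌉₊)
            (-PB (IN n) (fun p => if p ∣ q then y p else c p * x p))) := rfl
    rw [h5, e1, e2, ff_D h]
    generalize ffB c ((I0 n).filter (fun p => ¬ p ∣ q)) x = u1
    generalize ex (A₁ * ⌈Real.log (Real.log n)⌉₊) (-(∑ p ∈ (IN n).filter (fun p => p ∣ q),
      y p / Real.sqrt p + ∑ p ∈ (IN n).filter (fun p => ¬ p ∣ q), c p * x p / Real.sqrt p)) = u2
    generalize Real.exp (HB (IN n) / 2) = u3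
    generalize ∏ p ∈ (IN n).filter (fun p => p ∣ q), er p (y p) = u4
    calc _ = ((∏ p ∈ (I0 n).filter (fun p => p ∣ q), (1 - y p / Real.sqrt p + 1 / (p : ℝ))) *
          ∏ p ∈ (I0 n).filter (fun p => p ∣ q), er p (y p)) * (u1 * (u3 * u2) * u4) := by ring
      _ = _ := by rw [e3, one_mul]
  rw [e4]
  set S := ∑ p ∈ (IN n).filter (fun p => p ∣ q), y p / Real.sqrt p with hS
  set T := ∑ p ∈ (IN n).filter (fun p => ¬ p ∣ q), c p * x p / Real.sqrt p with hT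
  set K := A₁ * ⌈Real.log (Real.log (n : ℝ))⌉₊ with hK
  have h6 : ex K (-(S + T)) ≤ Real.exp |T| * Real.exp |S| := by
    refine (ex_le K _).trans ?_
    rw [← Real.exp_add]
    apply Real.exp_le_exp.mpr
    rw [abs_neg]
    have := abs_add_le S T
    linarith
  rw [abs_mul, abs_mul, abs_of_pos (mul_pos (Real.exp_pos _) (ex_pos K _)), abs_of_pos hE2]
  calc _ ≤ |ffB c ((I0 n).filter (fun p => ¬ p ∣ q)) x| * (Real.exp (HB (IN n) / 2) *
        (Real.exp |T| * Real.exp |S|)) * ∏ p ∈ (IN n).filter (fun p => p ∣ q), er p (y p) := by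
        refine mul_le_mul_of_nonneg_right ?_ hE2.le
        refine mul_le_mul_of_nonneg_left ?_ (abs_nonneg _)
        exact mul_le_mul_of_nonneg_left h6 (Real.exp_pos _).le
    _ = (|ffB c ((I0 n).filter (fun p => ¬ p ∣ q)) x| * (Real.exp (HB (IN n) / 2) *
        Real.exp |T|)) * (Real.exp |S| * ∏ p ∈ (IN n).filter (fun p => p ∣ q), er p (y p)) := by
        ring
    _ ≤ _ := mul_le_mul_of_nonneg_left hE1 (by positivity)

/-- the sum over the primes dividing `q` -/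
theorem ff_prims : ∃ C : ℝ, 0 ≤ C ∧ ∀ (L : ℝ) (q : ℕ) (E : Finset ℕ), Real.exp 1 ≤ L → 1 ≤ q →
    Real.log q ≤ L → (∀ p ∈ E, p.Prime ∧ p ∣ q) →
    ∑ p ∈ E, 1 / (p : ℝ) ≤ Real.log (Real.log L) + C := by
  obtain ⟨C0, hC0⟩ := mertens_two
  refine ⟨max C0 0 + 1, by positivity, fun L q E hL hq hlq hE => ?_⟩
  have he : (2 : ℝ) ≤ Real.exp 1 := by
    have := Real.exp_one_gt_d9
    linarith
  have hL0 : 0 < L := by linarith
  rw [← Finset.sum_filter_add_sum_filter_not E (fun p : ℕ => (p : ℝ) ≤ L)]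
  have h1 : ∑ p ∈ E.filter (fun p : ℕ => (p : ℝ) ≤ L), 1 / (p : ℝ) ≤
      Real.log (Real.log L) + max C0 0 := by
    have h2 : ∑ p ∈ E.filter (fun p : ℕ => (p : ℝ) ≤ L), 1 / (p : ℝ) ≤
        ∑ p ∈ (Finset.Icc 1 ⌊L⌋₊).filter Nat.Prime, 1 / (p : ℝ) := by
      refine Finset.sum_le_sum_of_subset_of_nonneg ?_ fun _ _ _ => by positivity
      intro p hp
      rw [Finset.mem_filter] at hp
      rw [Finset.mem_filter, Finset.mem_Icc]
      exact ⟨⟨(hE p hp.1).1.one_le, Nat.le_floor hp.2⟩, (hE p hp.1).1⟩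
    have h3 := (abs_le.mp (hC0 L (by linarith))).2
    have h4 := le_max_left C0 0
    linarith
  have h2 : ∑ p ∈ E.filter (fun p : ℕ => ¬ (p : ℝ) ≤ L), 1 / (p : ℝ) ≤ 1 := by
    have h3 : ∀ p ∈ E.filter (fun p : ℕ => ¬ (p : ℝ) ≤ L), 1 / (p : ℝ) ≤ Real.log p / L := by
      intro p hp
      have h4 : L < p := not_le.1 (Finset.mem_filter.1 hp).2
      have h5 : 1 ≤ Real.log p := by
        rw [Real.le_log_iff_exp_le (by linarith)]
        linarith
      calc 1 / (p : ℝ) ≤ 1 / L := one_div_le_one_div_of_le hL0 h4.le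
        _ ≤ Real.log p / L := div_le_div_of_nonneg_right h5 hL0.le
    refine (Finset.sum_le_sum h3).trans ?_
    rw [← Finset.sum_div, div_le_one hL0]
    refine le_trans ?_ hlq
    have h6 : ∏ p ∈ E.filter (fun p : ℕ => ¬ (p : ℝ) ≤ L), p ∣ q :=
      Finset.prod_primes_dvd q (fun p hp => (hE p (Finset.mem_filter.1 hp).1).1.prime)
        (fun p hp => (hE p (Finset.mem_filter.1 hp).1).2)
    have h7 := Nat.le_of_dvd (by omega) h6
    have h8 : (0 : ℝ) < ∏ p ∈ E.filter (fun p : ℕ => ¬ (p : ℝ) ≤ L), (p : ℝ) :=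
      Finset.prod_pos fun p hp => by exact_mod_cast (hE p (Finset.mem_filter.1 hp).1).1.pos
    rw [← Real.log_prod (fun p hp => by
      exact_mod_cast (hE p (Finset.mem_filter.1 hp).1).1.pos.ne')]
    apply Real.log_le_log h8
    have h9 : ((∏ p ∈ E.filter (fun p : ℕ => ¬ (p : ℝ) ≤ L), p : ℕ) : ℝ) ≤ (q : ℝ) :=
      Nat.cast_le.mpr h7
    rw [Nat.cast_prod] at h9
    exact h9
  linarith

/-- the second moment of the twisted sum over primes -/
theorem ff_block {N : ℕ} [Fact N.Prime] (hN : 16 ≤ N) {ι : Type} [Fintype ι] (f : ι → S2 N)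
    (hi : Function.Injective f) (hn : ∀ i, IsNew (f i)) {c : ℕ → ℝ} (hc : ∀ p, |c p| ≤ 1)
    {I : Finset ℕ} (hI : ∀ p ∈ I, 1 ≤ p ∧ (p : ℝ) ≤ (N : ℝ) ^ (1 / 2 : ℝ)) :
    ∑ i, om (f i) * (∑ p ∈ I, c p * la (f i) p / Real.sqrt p) ^ 2 ≤
      Real.exp (8 * Real.pi * (1 / 2)) * HB I := by
  classical
  have hNr : (16 : ℝ) ≤ N := by exact_mod_cast hN
  have hNp : (0 : ℝ) < N := by linarith
  set X : ℕ := ⌊(N : ℝ) ^ (1 / 2 : ℝ)⌋₊ with hX
  have hsq : ((N : ℝ) ^ (1 / 2 : ℝ)) ^ 2 = N := by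
    rw [← Real.sqrt_eq_rpow, Real.sq_sqrt hNp.le]
  have h4 : (4 : ℝ) ≤ (N : ℝ) ^ (1 / 2 : ℝ) := by
    rw [← Real.sqrt_eq_rpow]
    apply Real.le_sqrt_of_sq_le
    linarith
  have hX1 : 1 ≤ X := Nat.le_floor (by push_cast; linarith)
  have hX2 : (X : ℝ) ≤ (1 / 2 : ℝ) ^ 2 * N := by
    have : (X : ℝ) ≤ (N : ℝ) ^ (1 / 2 : ℝ) := Nat.floor_le (by positivity)
    nlinarith
  have hsub : I ⊆ Finset.Icc 1 X := by
    intro p hp
    rw [Finset.mem_Icc]
    exact ⟨(hI p hp).1, Nat.le_floor (hI p hp).2⟩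
  have key := ls_sharp f hi hn (ν := 1 / 2) (by norm_num) (by norm_num) hX1 hX2
    (fun n => if n ∈ I then c n / Real.sqrt n else 0) 0
  have e1 : ∑ n ∈ Finset.Icc 1 X, (if n ∈ I then c n / Real.sqrt n else 0 : ℝ) ^ 2 ≤ HB I := by
    have h5 : ∑ n ∈ Finset.Icc 1 X, (if n ∈ I then c n / Real.sqrt n else 0 : ℝ) ^ 2 ≤
        ∑ n ∈ Finset.Icc 1 X, if n ∈ I then 1 / (n : ℝ) else 0 := by
      refine Finset.sum_le_sum fun n _ => ?_
      by_cases h : n ∈ I
      · rw [if_pos h, if_pos h, div_pow, Real.sq_sqrt (Nat.cast_nonneg n)]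
        refine div_le_div_of_nonneg_right ?_ (Nat.cast_nonneg n)
        rw [← sq_abs]
        exact pow_le_one₀ (abs_nonneg _) (hc n)
      · rw [if_neg h, if_neg h]; norm_num
    rw [Finset.sum_ite_mem, Finset.inter_eq_right.2 hsub] at h5
    exact h5
  have e2 : ∀ i, ∑ n ∈ Finset.Icc 1 X, (if n ∈ I then c n / Real.sqrt n else 0 : ℝ) * la (f i) n +
      0 * se (f i) = ∑ p ∈ I, c p * la (f i) p / Real.sqrt p := by
    intro i
    have : ∑ n ∈ Finset.Icc 1 X, (if n ∈ I then c n / Real.sqrt n else 0 : ℝ) * la (f i) n =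
        ∑ n ∈ Finset.Icc 1 X, if n ∈ I then c n * la (f i) n / Real.sqrt n else 0 := by
      refine Finset.sum_congr rfl fun n _ => ?_
      by_cases h : n ∈ I
      · rw [if_pos h, if_pos h]; ring
      · rw [if_neg h, if_neg h]; ring
    rw [this, Finset.sum_ite_mem, Finset.inter_eq_right.2 hsub]
    ring
  simp only [e2] at key
  refine key.trans (mul_le_mul_of_nonneg_left ?_ (Real.exp_pos _).le)
  linarith

/-- the integral over the coordinates dividing `q` -/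
theorem ff_intE {D E : Finset ℕ} (hED : E ⊆ D) (hE : ∀ p ∈ E, 1 ≤ p) {P : Measure (ℕ → ℝ)}
    (hP : IsST D P) {s : ℝ} (hs : |s| ≤ 2) :
    Integrable (fun y : ℕ → ℝ =>
      ∏ p ∈ E, (1 + s * (y p / Real.sqrt p) + 6 * (y p / Real.sqrt p) ^ 2)) P ∧
    ∫ y, ∏ p ∈ E, (1 + s * (y p / Real.sqrt p) + 6 * (y p / Real.sqrt p) ^ 2) ∂P ≤
      Real.exp (6 * ∑ p ∈ E, 1 / (p : ℝ)) := by
  classical
  have := hP.prob
  have e1 : ∀ y : ℕ → ℝ, ∏ p ∈ E, (1 + s * (y p / Real.sqrt p) + 6 * (y p / Real.sqrt p) ^ 2) =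
      ∏ p ∈ D, (fun (p : ℕ) (t : ℝ) => if p ∈ E then
        (1 + s * (t / Real.sqrt p) + 6 * (t / Real.sqrt p) ^ 2) else 1) p (y p) := by
    intro y
    beta_reduce
    rw [Finset.prod_ite_mem, Finset.inter_eq_right.2 hED]
  have hφ : ∀ p ∈ D, Continuous ((fun (p : ℕ) (t : ℝ) => if p ∈ E then
        (1 + s * (t / Real.sqrt p) + 6 * (t / Real.sqrt p) ^ 2) else 1) p) := by
    intro p _
    beta_reduce
    by_cases h : p ∈ E
    · simp only [if_pos h]
      fun_prop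
    · simp only [if_neg h]
      fun_prop
  simp_rw [e1]
  constructor
  · refine ff_int hP _ hφ (C := 29) fun p _ t ht => ?_
    by_cases h : p ∈ E
    · rw [if_pos h]
      have h1 : (1 : ℝ) ≤ p := by exact_mod_cast hE p h
      have h2 : 1 ≤ Real.sqrt p := Real.one_le_sqrt.mpr h1
      have h3 : |t / Real.sqrt p| ≤ 2 := by
        rw [abs_div, abs_of_pos (by linarith : 0 < Real.sqrt p), div_le_iff₀ (by linarith)]
        linarith
      have h4 : |s * (t / Real.sqrt p)| ≤ 4 := by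
        rw [abs_mul]
        have := mul_le_mul hs h3 (abs_nonneg _) (by norm_num)
        linarith
      have h5 : (t / Real.sqrt p) ^ 2 ≤ 4 := by
        rw [← sq_abs]
        have := pow_le_pow_left₀ (abs_nonneg _) h3 2
        linarith
      have h6 := sq_nonneg (t / Real.sqrt p)
      have h7 := abs_le.mp h4
      rw [abs_le]
      constructor <;> linarith [h7.1, h7.2]
    · rw [if_neg h]
      norm_num
  · rw [ff_prod hP _ hφ, Finset.mul_sum, Real.exp_sum]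
    have e2 : ∏ p ∈ E, Real.exp (6 * (1 / (p : ℝ))) =
        ∏ p ∈ D, if p ∈ E then Real.exp (6 * (1 / (p : ℝ))) else 1 := by
      rw [Finset.prod_ite_mem, Finset.inter_eq_right.2 hED]
    rw [e2]
    have e3 : ∀ p ∈ D, ∫ x : ℕ → ℝ, (fun (p : ℕ) (t : ℝ) => if p ∈ E then
        (1 + s * (t / Real.sqrt p) + 6 * (t / Real.sqrt p) ^ 2) else 1) p (x p) ∂P =
        if p ∈ E then 1 + 6 * (1 / (p : ℝ)) else 1 := by
      intro p hp
      beta_reduce
      by_cases h : p ∈ E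
      · simp only [if_pos h]
        have h1 : (1 : ℝ) ≤ p := by exact_mod_cast hE p h
        have hsq : Real.sqrt p ^ 2 = p := Real.sq_sqrt (by linarith)
        have h2 : ∀ x : ℕ → ℝ, 1 + s * (x p / Real.sqrt p) + 6 * (x p / Real.sqrt p) ^ 2 =
            1 + (s / Real.sqrt p) * x p + (6 * (1 / (p : ℝ))) * x p ^ 2 := by
          intro x
          rw [div_pow, hsq]
          ring
        simp_rw [h2]
        rw [ff_mom hP hp]
      · simp only [if_neg h]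
        simp
    rw [Finset.prod_congr rfl e3]
    refine Finset.prod_le_prod (fun p _ => ?_) fun p _ => ?_
    · by_cases h : p ∈ E
      · rw [if_pos h]
        positivity
      · rw [if_neg h]
        norm_num
    · by_cases h : p ∈ E
      · rw [if_pos h, if_pos h, add_comm]
        exact Real.add_one_le_exp _
      · rw [if_neg h, if_neg h]

theorem ff_lim (k : ℕ) {b : ℝ} (hb : 0 < b) (C : ℝ) {κ : ℝ} (hκ : 0 < κ) :
    ∀ᶠ l : ℝ in atTop, C * l ^ k ≤ κ * Real.exp (b * l) := by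
  have h := ((isLittleO_pow_exp_pos_mul_atTop (k := k) hb).const_mul_left C).bound hκ
  filter_upwards [h] with l hl
  rw [Real.norm_eq_abs, Real.norm_eq_abs, abs_of_pos (Real.exp_pos _)] at hl
  exact (le_abs_self _).trans hl

/-- the parameters -/
theorem ff_par {N q : ℕ} (hN : 16 ≤ N) (hq1 : 1 ≤ q) (hq : (q : ℝ) ≤ (N : ℝ) ^ (1 / 10 : ℝ))
    (hl24 : 24 ≤ Real.log (Real.log (N : ℝ))) (hlg : Real.log (N : ℝ) ^ 2 / N < 1 / 20000) {n : ℕ}
    (hnd : N * q ^ 2 = n) :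
    Real.log (Real.log (N : ℝ)) ≤ Real.log (Real.log (n : ℝ)) ∧
    Real.log (Real.log (n : ℝ)) ≤ Real.log (Real.log (N : ℝ)) + 1 ∧
    Real.log (Real.log (n : ℝ)) ≤ zN n ∧ zN n ≤ (N : ℝ) ^ (1 / 2 : ℝ) ∧
    Real.exp (2 * Real.log (Real.log (n : ℝ))) ≤ (1 / 100) ^ 2 * N ∧
    Real.log q ≤ Real.log (N : ℝ) ∧ 0 < Real.log (N : ℝ) := by
  have hNr : (16 : ℝ) ≤ N := by exact_mod_cast hN
  have hN0 : (0 : ℝ) < N := by linarith
  have hlogN : 0 < Real.log N := Real.log_pos (by linarith)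
  have hq0 : (0 : ℝ) < q := by exact_mod_cast hq1
  have hlq0 : 0 ≤ Real.log q := Real.log_nonneg (by exact_mod_cast hq1)
  have hlq : Real.log q ≤ 1 / 10 * Real.log N := by
    have := Real.log_le_log hq0 hq
    rwa [Real.log_rpow hN0] at this
  have hlogn : Real.log (n : ℝ) = Real.log N + 2 * Real.log q := by
    rw [← hnd]
    push_cast
    rw [Real.log_mul hN0.ne' (by positivity), Real.log_pow]
    push_cast
    ring
  have hlogn0 : 0 < Real.log n := by rw [hlogn]; linarith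
  have hlogn2 : Real.log n ≤ 12 / 10 * Real.log N := by rw [hlogn]; linarith
  have hll' : Real.log (Real.log (N : ℝ)) ≤ Real.log (Real.log (n : ℝ)) :=
    Real.log_le_log hlogN (by rw [hlogn]; linarith)
  have hl'l : Real.log (Real.log (n : ℝ)) ≤ Real.log (Real.log (N : ℝ)) + 1 := by
    have h1 : Real.log n ≤ Real.exp 1 * Real.log N := by
      refine hlogn2.trans (mul_le_mul_of_nonneg_right ?_ hlogN.le)
      have := Real.exp_one_gt_d9
      linarith
    have h3 := Real.log_le_log hlogn0 h1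
    rw [Real.log_mul (Real.exp_pos 1).ne' hlogN.ne', Real.log_exp] at h3
    linarith
  have hexpl' : Real.exp (Real.log (Real.log (n : ℝ))) = Real.log n := Real.exp_log hlogn0
  refine ⟨hll', hl'l, ?_, ?_, ?_, by linarith, hlogN⟩
  · unfold zN
    generalize Real.log (Real.log (n : ℝ)) = l' at *
    have hl'0 : 0 < l' := by linarith
    have h1 := Real.pow_div_factorial_le_exp l' hl'0.le 4
    have h3 : ((4 : ℕ).factorial : ℝ) = 24 := by norm_num [Nat.factorial]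
    rw [h3] at h1
    have h2 : l' ≤ Real.log n / l' ^ 2 := by
      rw [le_div_iff₀ (by positivity), ← hexpl']
      have h4 : l' * l' ^ 2 ≤ l' ^ 4 / 24 := by
        rw [le_div_iff₀ (by norm_num)]
        have h5 : 0 ≤ l' ^ 3 * (l' - 24) := mul_nonneg (by positivity) (by linarith)
        nlinarith
      linarith
    calc l' ≤ Real.exp l' := by linarith [Real.add_one_le_exp l']
      _ ≤ _ := Real.exp_le_exp.mpr h2
  · unfold zN
    rw [Real.rpow_def_of_pos hN0]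
    apply Real.exp_le_exp.mpr
    generalize Real.log (Real.log (n : ℝ)) = l' at *
    have hl'0 : 0 < l' := by linarith
    rw [div_le_iff₀ (by positivity)]
    have h2 : (4 : ℝ) ≤ l' ^ 2 := by nlinarith
    nlinarith
  · have h1 : Real.exp (2 * Real.log (Real.log (n : ℝ))) = Real.log n ^ 2 := by
      have h2 : 2 * Real.log (Real.log (n : ℝ)) =
        Real.log (Real.log (n : ℝ)) + Real.log (Real.log (n : ℝ)) := by ring
      rw [h2, Real.exp_add, hexpl', sq]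
    rw [h1]
    have h2 := hlg.le
    rw [div_le_iff₀ hN0] at h2
    have h3 : Real.log n ^ 2 ≤ (12 / 10 * Real.log N) ^ 2 := pow_le_pow_left₀ hlogn0.le hlogn2 2
    have h4 : (12 / 10 * Real.log N) ^ 2 = 144 / 100 * Real.log N ^ 2 := by ring
    rw [h4] at h3
    have h5 : (1 / 100 : ℝ) ^ 2 * N = 1 / 10000 * N := by ring
    rw [h5]
    linarith

/-- the first exceptional set -/
theorem ff_s1 {N n q : ℕ} [Fact N.Prime] {ι : Type} [Fintype ι] (f : ι → S2 N)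
    (hi : Function.Injective f) (hn : ∀ i, IsNew (f i)) {c : ℕ → ℝ} (hc1 : ∀ p, |c p| ≤ 1)
    {δ ε l : ℝ} (hl24 : 24 ≤ l) (hll' : l ≤ Real.log (Real.log (n : ℝ)))
    (hl'l : Real.log (Real.log (n : ℝ)) ≤ l + 1)
    (he2l : Real.exp (2 * Real.log (Real.log (n : ℝ))) ≤ (1 / 100) ^ 2 * N)
    (hL4 : 32 * Real.exp 4 * l ^ 4 ≤ ε / 2 * Real.exp (δ / 4 * l)) (s₁ : Finset ι)
    (h : ∀ i ∈ s₁, Real.exp (δ / 8 * l) <
      |ffB c ((I0 n).filter (fun p => ¬ p ∣ q)) (la (f i))|) :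
    ∑ i ∈ s₁, om (f i) ≤ ε / 2 := by
  have hlltN : Real.log (Real.log (n : ℝ)) < N := by
    have h1 := Real.add_one_le_exp (2 * Real.log (Real.log (n : ℝ)))
    nlinarith
  set J : Finset ℕ := (I0 n).filter (fun p => ¬ p ∣ q) with hJ
  have hI0 : ∀ p ∈ I0 n, p.Prime ∧ p < N := by
    intro p hp
    unfold I0 at hp
    rw [Finset.mem_filter, Finset.mem_Icc] at hp
    refine ⟨hp.2, ?_⟩
    have h1 : (p : ℝ) ≤ Real.log (Real.log (n : ℝ)) := (Nat.le_floor_iff (by linarith)).mp hp.1.2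
    exact_mod_cast h1.trans_lt hlltN
  have hJ0 : ∀ p ∈ J, p.Prime ∧ p < N := fun p hp => hI0 p (Finset.mem_filter.1 hp).1
  obtain ⟨P₁, hP₁⟩ := st_exists J (fun p hp => (hJ0 p hp).1)
  have hhp := ff_hp c J (fun p hp => (hJ0 p hp).1)
  have hX1 : 1 ≤ ∏ p ∈ J, p := Finset.prod_pos fun p hp => (hJ0 p hp).1.pos
  have hX2 : ((∏ p ∈ J, p : ℕ) : ℝ) ≤ (1 / 100) ^ 2 * N := by
    have h1 : ∏ p ∈ J, p ≤ ∏ p ∈ I0 n, p :=
      Finset.prod_le_prod_of_subset_of_one_le' (Finset.filter_subset _ _)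
        fun p hp _ => (hI0 p hp).1.one_le
    have h2 : ((∏ p ∈ J, p : ℕ) : ℝ) ≤ ((∏ p ∈ I0 n, p : ℕ) : ℝ) := Nat.cast_le.mpr h1
    exact h2.trans ((tyb_prim (l := Real.log (Real.log (n : ℝ))) (by linarith)).trans he2l)
  have htr := transfer f hi hn (ν := 1 / 100) (by norm_num) (by norm_num) hX1 hX2
    (I := J) hJ0 hP₁ hhp 0
  simp only [zero_mul, add_zero] at htr
  have hBsq : ∫ x, ffB c J x ^ 2 ∂P₁ ≤ 16 * Real.exp 4 * l ^ 4 := by
    refine (ff_sq hc1 (fun p hp => (hJ0 p hp).1) hP₁).trans ?_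
    have h1 : ∑ p ∈ I0 n, 1 / (p : ℝ) ≤ 1 + Real.log (Real.log (Real.log (n : ℝ))) :=
      tyb_harm (l := Real.log (Real.log (n : ℝ))) (by linarith)
    have h1' : ∑ p ∈ J, 1 / (p : ℝ) ≤ ∑ p ∈ I0 n, 1 / (p : ℝ) :=
      Finset.sum_le_sum_of_subset_of_nonneg (Finset.filter_subset _ _) fun _ _ _ => by positivity
    generalize Real.log (Real.log (n : ℝ)) = l' at *
    calc Real.exp (4 * ∑ p ∈ J, 1 / (p : ℝ)) ≤ Real.exp (4 + 4 * Real.log l') :=
          Real.exp_le_exp.mpr (by linarith)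
      _ = Real.exp 4 * l' ^ 4 := by
          rw [Real.exp_add]
          congr 1
          have h2 : 4 * Real.log l' = ((4 : ℕ) : ℝ) * Real.log l' := by push_cast; ring
          rw [h2, Real.exp_nat_mul, Real.exp_log (by linarith)]
      _ ≤ Real.exp 4 * (2 * l) ^ 4 :=
          mul_le_mul_of_nonneg_left (pow_le_pow_left₀ (by linarith) (by linarith) 4)
            (Real.exp_pos _).le
      _ = 16 * Real.exp 4 * l ^ 4 := by ring
  have h6 : ∑ i, om (f i) * ffB c J (la (f i)) ^ 2 ≤ 2 * (16 * Real.exp 4 * l ^ 4) := by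
    refine htr.trans ?_
    have h5 : (0 : ℝ) ≤ ∫ x, ffB c J x ^ 2 ∂P₁ := integral_nonneg fun x => sq_nonneg _
    have h7 : ∫ x, ffB c J x ^ 2 ∂P₁ + 0 ^ 2 ≤ 16 * Real.exp 4 * l ^ 4 := by
      rw [zero_pow two_ne_zero, add_zero]; exact hBsq
    exact mul_le_mul tyb_exp h7 (by positivity) (by norm_num)
  have h7 := HAR_cheb (fun i => om (f i)) (fun i => ffB c J (la (f i)) ^ 2)
    (fun i => tyb_om (hn i)) (fun i => sq_nonneg _) (t := Real.exp (δ / 4 * l)) (Real.exp_pos _)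
    h6 s₁ (by
      intro i hi'
      have h8 := h i hi'
      have h9 : Real.exp (δ / 4 * l) = Real.exp (δ / 8 * l) ^ 2 := by
        rw [← Real.exp_nat_mul]
        congr 1
        push_cast
        ring
      show Real.exp (δ / 4 * l) ≤ ffB c J (la (f i)) ^ 2
      rw [h9, ← sq_abs (ffB c J (la (f i)))]
      exact pow_le_pow_left₀ (Real.exp_pos _).le h8.le 2)
  refine h7.trans ?_
  rw [div_le_iff₀ (Real.exp_pos _)]
  calc 2 * (16 * Real.exp 4 * l ^ 4) = 32 * Real.exp 4 * l ^ 4 := by ring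
    _ ≤ _ := hL4

/-- the second exceptional set -/
theorem ff_s2 {N n q : ℕ} [Fact N.Prime] (hN : 16 ≤ N) {ι : Type} [Fintype ι] (f : ι → S2 N)
    (hi : Function.Injective f) (hn : ∀ i, IsNew (f i)) {c : ℕ → ℝ} (hc1 : ∀ p, |c p| ≤ 1)
    {δ ε l : ℝ} (hδ : 0 < δ) (hε : 0 < ε) (hl24 : 24 ≤ l)
    (hl'l : Real.log (Real.log (n : ℝ)) ≤ l + 1) (hHB : HB (IN n) ≤ Real.log (Real.log (n : ℝ)))
    (hzN2 : zN n ≤ (N : ℝ) ^ (1 / 2 : ℝ))
    (hlE : 256 * Real.exp (8 * Real.pi * (1 / 2)) / (δ ^ 2 * ε) ≤ l) (s₂ : Finset ι)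
    (h : ∀ i ∈ s₂, δ / 8 * l <
      |∑ p ∈ (IN n).filter (fun p => ¬ p ∣ q), c p * la (f i) p / Real.sqrt p|) :
    ∑ i ∈ s₂, om (f i) ≤ ε / 2 := by
  have hE0' : 0 < Real.exp (8 * Real.pi * (1 / 2)) := Real.exp_pos _
  generalize hE0 : Real.exp (8 * Real.pi * (1 / 2)) = E0 at *
  set F : Finset ℕ := (IN n).filter (fun p => ¬ p ∣ q) with hF
  have hIN : ∀ p ∈ F, 1 ≤ p ∧ (p : ℝ) ≤ (N : ℝ) ^ (1 / 2 : ℝ) := by
    intro p hp
    have hp := (Finset.mem_filter.1 hp).1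
    unfold IN at hp
    rw [Finset.mem_filter, Finset.mem_Icc] at hp
    refine ⟨hp.1.1, ?_⟩
    have hz0 : 0 ≤ zN n := (Real.exp_pos _).le
    have h1 : (p : ℝ) ≤ zN n := (Nat.le_floor_iff hz0).mp hp.1.2
    exact h1.trans hzN2
  have h7 := ff_block hN f hi hn hc1 hIN
  rw [hE0] at h7
  have h7' : HB F ≤ 2 * l := by
    have h8 : HB F ≤ HB (IN n) := by
      unfold HB
      exact Finset.sum_le_sum_of_subset_of_nonneg (Finset.filter_subset _ _)
        fun _ _ _ => by positivity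
    linarith
  have h8 : ∑ i, om (f i) * (∑ p ∈ F, c p * la (f i) p / Real.sqrt p) ^ 2 ≤ E0 * (2 * l) := by
    refine h7.trans ?_
    exact mul_le_mul_of_nonneg_left h7' hE0'.le
  have hl0 : 0 < l := by linarith
  have h9 := HAR_cheb (fun i => om (f i))
    (fun i => (∑ p ∈ F, c p * la (f i) p / Real.sqrt p) ^ 2)
    (fun i => tyb_om (hn i)) (fun i => sq_nonneg _) (t := (δ / 8 * l) ^ 2) (by positivity) h8 s₂ (by
      intro i hi'
      have h10 := h i hi'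
      show (δ / 8 * l) ^ 2 ≤ (∑ p ∈ F, c p * la (f i) p / Real.sqrt p) ^ 2
      rw [← sq_abs (∑ p ∈ F, c p * la (f i) p / Real.sqrt p)]
      exact pow_le_pow_left₀ (by positivity) h10.le 2)
  refine h9.trans ?_
  rw [div_le_iff₀ (by positivity)]
  rw [div_le_iff₀ (by positivity)] at hlE
  have h11 : ε / 2 * (δ / 8 * l) ^ 2 = (l * (δ ^ 2 * ε)) * (l / 128) := by ring
  rw [h11]
  have h12 : 256 * E0 * (l / 128) ≤ (l * (δ ^ 2 * ε)) * (l / 128) :=
    mul_le_mul_of_nonneg_right hlE (by positivity)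
  linarith

/-- the bound for the integral -/
theorem ff_fin {n q : ℕ} (A₁ : ℕ) {c x : ℕ → ℝ} {L δ l C : ℝ} (hl24 : 24 ≤ l)
    (hL : 0 < L) (hlL : Real.log L = l) (hll' : l ≤ Real.log (Real.log (n : ℝ)))
    (hl'l : Real.log (Real.log (n : ℝ)) ≤ l + 1) (hHB : HB (IN n) ≤ Real.log (Real.log (n : ℝ)))
    (hzN : Real.log (Real.log (n : ℝ)) ≤ zN n)
    (hC : ∀ E : Finset ℕ, (∀ p ∈ E, p.Prime ∧ p ∣ q) → ∑ p ∈ E, 1 / (p : ℝ) ≤ Real.log l + C)
    (hL6 : 2 * Real.exp (1 / 2) * Real.exp (6 * C) * l ^ 6 ≤ Real.exp (3 * δ / 4 * l))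
    {P : Measure (ℕ → ℝ)} (hP : IsST ((IZ n).filter (fun p => p ∣ q)) P)
    (c1 : |ffB c ((I0 n).filter (fun p => ¬ p ∣ q)) x| ≤ Real.exp (δ / 8 * l))
    (c2 : |∑ p ∈ (IN n).filter (fun p => ¬ p ∣ q), c p * x p / Real.sqrt p| ≤ δ / 8 * l) :
    |∫ y, Bz A₁ n (fun p => if p ∣ q then y p else c p * x p) *
      ∏ p ∈ (IZ n).filter (fun p => p ∣ q), er p (y p) ∂P| ≤ L ^ (1 / 2 + δ) := by
  set E : Finset ℕ := (IN n).filter (fun p => p ∣ q) with hE
  have hED : E ⊆ (IZ n).filter (fun p => p ∣ q) := by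
    intro p hp
    rw [hE] at hp
    unfold IN at hp
    unfold IZ zz
    simp only [Finset.mem_filter, Finset.mem_Icc] at hp ⊢
    exact ⟨⟨⟨hp.1.1.1, hp.1.1.2⟩, hp.1.2.1⟩, hp.2⟩
  have hE1 : ∀ p ∈ E, 1 ≤ p ∧ p.Prime ∧ p ∣ q := by
    intro p hp
    rw [hE] at hp
    unfold IN at hp
    simp only [Finset.mem_filter, Finset.mem_Icc] at hp
    exact ⟨hp.1.1.1, hp.1.2.1, hp.2⟩
  obtain ⟨i1, j1⟩ := ff_intE hED (fun p hp => (hE1 p hp).1) hP (s := 2) (by norm_num)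
  obtain ⟨i2, j2⟩ := ff_intE hED (fun p hp => (hE1 p hp).1) hP (s := 0) (by norm_num)
  simp only [zero_mul, add_zero] at i2 j2
  set M : ℝ := |ffB c ((I0 n).filter (fun p => ¬ p ∣ q)) x| * (Real.exp (HB (IN n) / 2) *
      Real.exp |∑ p ∈ (IN n).filter (fun p => ¬ p ∣ q), c p * x p / Real.sqrt p|) with hM
  have hM0 : 0 ≤ M := by positivity
  have hbound := norm_integral_le_of_norm_le (μ := P)
    (f := fun y : ℕ → ℝ => Bz A₁ n (fun p => if p ∣ q then y p else c p * x p) *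
        ∏ p ∈ (IZ n).filter (fun p => p ∣ q), er p (y p)) ((i1.add i2).const_mul M) (by
      filter_upwards [hP.bdd] with y hy
      exact ff_pt A₁ hzN (by linarith) c x y hy)
  rw [Real.norm_eq_abs] at hbound
  refine hbound.trans ?_
  rw [integral_const_mul, integral_add' i1 i2]
  have h11 : ∑ p ∈ E, 1 / (p : ℝ) ≤ Real.log l + C := hC E (fun p hp => (hE1 p hp).2)
  have h12 : Real.exp (6 * ∑ p ∈ E, 1 / (p : ℝ)) ≤ Real.exp (6 * C) * l ^ 6 := by
    calc Real.exp (6 * ∑ p ∈ E, 1 / (p : ℝ)) ≤ Real.exp (6 * C + 6 * Real.log l) :=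
          Real.exp_le_exp.mpr (by linarith)
      _ = Real.exp (6 * C) * l ^ 6 := by
          rw [Real.exp_add]
          congr 1
          have h2 : 6 * Real.log l = ((6 : ℕ) : ℝ) * Real.log l := by push_cast; ring
          rw [h2, Real.exp_nat_mul, Real.exp_log (by linarith)]
  have h13 : M ≤ Real.exp (δ / 8 * l) * (Real.exp ((l + 1) / 2) * Real.exp (δ / 8 * l)) := by
    rw [hM]
    refine mul_le_mul c1 ?_ (by positivity) (Real.exp_pos _).le
    refine mul_le_mul (Real.exp_le_exp.mpr (by linarith)) (Real.exp_le_exp.mpr c2)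
      (Real.exp_pos _).le (Real.exp_pos _).le
  have h14 : Real.exp (δ / 8 * l) * (Real.exp ((l + 1) / 2) * Real.exp (δ / 8 * l)) =
      Real.exp (1 / 2) * Real.exp ((1 / 2 + δ / 4) * l) := by
    rw [← Real.exp_add, ← Real.exp_add, ← Real.exp_add]
    congr 1
    ring
  have h15 : L ^ (1 / 2 + δ) = Real.exp ((1 / 2 + δ / 4) * l) *
      Real.exp (3 * δ / 4 * l) := by
    rw [Real.rpow_def_of_pos hL, hlL, ← Real.exp_add]
    congr 1
    ring
  rw [h15]
  have hl0 : 0 < l := by linarith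
  calc _ ≤ M * (2 * (Real.exp (6 * C) * l ^ 6)) :=
        mul_le_mul_of_nonneg_left (by linarith) hM0
    _ ≤ (Real.exp (1 / 2) * Real.exp ((1 / 2 + δ / 4) * l)) *
        (2 * (Real.exp (6 * C) * l ^ 6)) :=
        mul_le_mul_of_nonneg_right (h13.trans (le_of_eq h14)) (by positivity)
    _ = Real.exp ((1 / 2 + δ / 4) * l) * (2 * Real.exp (1 / 2) * Real.exp (6 * C) * l ^ 6) := by
        ring
    _ ≤ _ := mul_le_mul_of_nonneg_left hL6 (Real.exp_pos _).le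

/-- the typical size of the short factor -/
theorem typ_bC (A₁ : ℕ) {δ ε : ℝ} (hδ : 0 < δ) (hε : 0 < ε) : ∃ N₀ : ℕ,
    ∀ (N : ℕ) [Fact N.Prime], N₀ ≤ N → ∀ {ι : Type} [Fintype ι] (f : ι → S2 N),
    Function.Injective f → (∀ i, IsNew (f i)) → ∀ (q : ℕ) [NeZero q]
    (χ : DirichletCharacter ℂ q), PQ χ → (q : ℝ) ≤ (N : ℝ) ^ (1 / 10 : ℝ) →
    ∀ P : Measure (ℕ → ℝ), IsST ((IZ (N * q ^ 2)).filter (fun p => p ∣ q)) P → ∀ t : Finset ι,
      (∀ i ∈ t, Real.log N ^ (1 / 2 + δ) <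
        |∫ y, Bz A₁ (N * q ^ 2) (fun p => if p ∣ q then y p else lx χ (f i) p) *
          ∏ p ∈ (IZ (N * q ^ 2)).filter (fun p => p ∣ q), er p (y p) ∂P|) →
      ∑ i ∈ t, om (f i) ≤ ε := by
  classical
  obtain ⟨C, hC0, hC⟩ := ff_prims
  obtain ⟨N₁, hN₁⟩ := hb_in (ε := 1) one_pos
  have hll : Tendsto (fun N : ℕ => Real.log (Real.log (N : ℝ))) atTop atTop :=
    Real.tendsto_log_atTop.comp (Real.tendsto_log_atTop.comp tendsto_natCast_atTop_atTop)
  have hlog2 : Tendsto (fun N : ℕ => Real.log (N : ℝ) ^ 2 / N) atTop (𝓝 0) :=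
    ((Real.isLittleO_pow_log_id_atTop (n := 2)).tendsto_div_nhds_zero).comp
      tendsto_natCast_atTop_atTop
  obtain ⟨N₂, hN₂⟩ := Filter.eventually_atTop.mp
    ((hll.eventually (((ff_lim 6 (b := 3 * δ / 4) (by positivity)
        (2 * Real.exp (1 / 2) * Real.exp (6 * C)) (κ := 1) one_pos).and
      (ff_lim 4 (b := δ / 4) (by positivity) (32 * Real.exp 4) (κ := ε / 2) (by positivity))).and
      (eventually_ge_atTop (max 24 (256 * Real.exp (8 * Real.pi * (1 / 2)) / (δ ^ 2 * ε)))))).and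
      (hlog2.eventually (gt_mem_nhds (show (0 : ℝ) < 1 / 20000 by norm_num))))
  refine ⟨N₁ + N₂ + 16, fun N _ hN ι _ f hi hn q _ χ _ hq P hP t ht => ?_⟩
  obtain ⟨⟨⟨hL6, hL4⟩, hLl⟩, hlg⟩ := hN₂ N (by omega)
  have hl24 : 24 ≤ Real.log (Real.log (N : ℝ)) := (le_max_left _ _).trans hLl
  have hlE := (le_max_right _ _).trans hLl
  have hq1 : 1 ≤ q := Nat.one_le_iff_ne_zero.mpr (NeZero.ne q)
  have hnN : N ≤ N * q ^ 2 := Nat.le_mul_of_pos_right N (pow_pos hq1 2)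
  obtain ⟨hHB, _, _⟩ := hN₁ (N * q ^ 2) (by omega)
  obtain ⟨hll', hl'l, hzN, hzN2, he2l, hlq, hlogN⟩ := ff_par (by omega) hq1 hq hl24 hlg
    (n := N * q ^ 2) rfl
  have hc1 : ∀ p : ℕ, |(fun p : ℕ => (χ (p : ZMod q)).re) p| ≤ 1 := fun p => ff_chi χ p
  have hC' : ∀ E : Finset ℕ, (∀ p ∈ E, p.Prime ∧ p ∣ q) →
      ∑ p ∈ E, 1 / (p : ℝ) ≤ Real.log (Real.log (Real.log (N : ℝ))) + C := by
    intro E hE
    refine hC (Real.log N) q E ?_ hq1 hlq hE
    rw [← Real.exp_log hlogN]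
    exact Real.exp_le_exp.mpr (by linarith)
  rw [one_mul] at hL6
  have hm1 := ff_s1 (q := q) f hi hn hc1 hl24 hll' hl'l he2l hL4 (Finset.univ.filter
    (fun i => Real.exp (δ / 8 * Real.log (Real.log (N : ℝ))) <
      |ffB (fun p : ℕ => (χ (p : ZMod q)).re) ((I0 (N * q ^ 2)).filter (fun p => ¬ p ∣ q))
        (la (f i))|)) (fun i hi' => (Finset.mem_filter.1 hi').2)
  have hm2 := ff_s2 (q := q) (by omega) f hi hn hc1 hδ hε hl24 hl'l hHB hzN2 hlE (Finset.univ.filter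
    (fun i => δ / 8 * Real.log (Real.log (N : ℝ)) <
      |∑ p ∈ (IN (N * q ^ 2)).filter (fun p => ¬ p ∣ q),
        (fun p : ℕ => (χ (p : ZMod q)).re) p * la (f i) p / Real.sqrt p|))
    (fun i hi' => (Finset.mem_filter.1 hi').2)
  have hfin : ∀ i, |ffB (fun p : ℕ => (χ (p : ZMod q)).re)
        ((I0 (N * q ^ 2)).filter (fun p => ¬ p ∣ q)) (la (f i))| ≤
        Real.exp (δ / 8 * Real.log (Real.log (N : ℝ))) →
      |∑ p ∈ (IN (N * q ^ 2)).filter (fun p => ¬ p ∣ q),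
        (fun p : ℕ => (χ (p : ZMod q)).re) p * la (f i) p / Real.sqrt p| ≤
        δ / 8 * Real.log (Real.log (N : ℝ)) → i ∉ t := by
    intro i c1 c2 hit
    exact absurd (ht i hit) (not_lt.mpr (ff_fin A₁ hl24 hlogN rfl hll' hl'l hHB hzN hC' hL6 hP
      c1 c2))
  generalize hs₁ : Finset.univ.filter
    (fun i => Real.exp (δ / 8 * Real.log (Real.log (N : ℝ))) <
      |ffB (fun p : ℕ => (χ (p : ZMod q)).re) ((I0 (N * q ^ 2)).filter (fun p => ¬ p ∣ q))
        (la (f i))|) = s₁ at hm1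
  generalize hs₂ : Finset.univ.filter
    (fun i => δ / 8 * Real.log (Real.log (N : ℝ)) <
      |∑ p ∈ (IN (N * q ^ 2)).filter (fun p => ¬ p ∣ q),
        (fun p : ℕ => (χ (p : ZMod q)).re) p * la (f i) p / Real.sqrt p|) = s₂ at hm2
  have hsub : t ⊆ s₁ ∪ s₂ := by
    intro i hi'
    by_contra hcon
    rw [Finset.mem_union, not_or] at hcon
    obtain ⟨c1, c2⟩ := hcon
    rw [← hs₁, Finset.mem_filter] at c1
    rw [← hs₂, Finset.mem_filter] at c2
    refine hfin i ?_ ?_ hi'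
    · by_contra h
      exact c1 ⟨Finset.mem_univ _, not_le.1 h⟩
    · by_contra h
      exact c2 ⟨Finset.mem_univ _, not_le.1 h⟩
  have hom : ∀ i, 0 ≤ om (f i) := fun i => tyb_om (hn i)
  calc ∑ i ∈ t, om (f i) ≤ ∑ i ∈ s₁ ∪ s₂, om (f i) :=
        Finset.sum_le_sum_of_subset_of_nonneg hsub fun i _ _ => hom i
    _ ≤ ∑ i ∈ s₁, om (f i) + ∑ i ∈ s₂, om (f i) := by
        have := Finset.sum_union_inter (s₁ := s₁) (s₂ := s₂) (f := fun i => om (f i))
        have h0 : 0 ≤ ∑ i ∈ s₁ ∩ s₂, om (f i) := Finset.sum_nonneg fun i _ => hom i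
        linarith
    _ ≤ ε := by linarith

end Pool.Agent.TK
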