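import Pool.Agent.Lib_helper41.TK.W.FJ
import Pool.Agent.Lib_helper68.KSLF.FID

/-! TK, block FK. -/

set_option autoImplicit false

namespace Pool.Agent.TK

open Pool.Agent.LEV Pool.Agent.LVB Pool.Agent.KSL
open Pool.Agent.LK (PQ)
open Pool.Agent.FG61 (mu phi cc ff AA Lam)
open Complex MeasureTheory Filter Topology UpperHalfPlane ModularGroup ProbabilityTheory
open scoped MatrixGroups Modular ENNReal ModularForm ComplexConjugate ContDiff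

theorem fk_eps {ε K : ℝ} (hε : 0 < ε) (hK0 : 0 ≤ K) :
    ∃ ε₁ : ℝ, 0 < ε₁ ∧ ε₁ ≤ 1 ∧ (4 + K) * Real.sqrt ε₁ ≤ ε / 2 := by
  refine ⟨min 1 ((ε / (2 * (4 + K))) ^ 2), by positivity, min_le_left _ _, ?_⟩
  have h1 : Real.sqrt (min 1 ((ε / (2 * (4 + K))) ^ 2)) ≤ ε / (2 * (4 + K)) := by
    rw [← Real.sqrt_sq (show 0 ≤ ε / (2 * (4 + K)) by positivity)]
    exact Real.sqrt_le_sqrt (by
      rw [Real.sqrt_sq (by positivity)]
      exact min_le_right _ _)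
  calc (4 + K) * Real.sqrt (min 1 ((ε / (2 * (4 + K))) ^ 2)) ≤ (4 + K) * (ε / (2 * (4 + K))) := by
        gcongr
    _ = ε / 2 := by field_simp

theorem fk_num {N ε ε₁ K S T : ℝ} (hN : 0 ≤ N) (he0 : 0 < ε₁) (he1 : ε₁ ≤ 1) (hK0 : 0 ≤ K)
    (he2 : (4 + K) * Real.sqrt ε₁ ≤ ε / 2)
    (hgood : 1 / 4 * (1 - ε₁) - ε₁ - Real.sqrt ε₁ * K ≤ S) (hmt : T ≤ 2) :
    N / 24 * (1 / 2 - ε) ≤ N / 12 * ((1 - ε₁) * S - ε₁ * T) := by
  have h1 : ε₁ ≤ Real.sqrt ε₁ := by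
    apply Real.le_sqrt_of_sq_le
    nlinarith
  have h2 : 0 ≤ Real.sqrt ε₁ := Real.sqrt_nonneg _
  have h3 : (1 - ε₁) * (1 / 4 * (1 - ε₁) - ε₁ - Real.sqrt ε₁ * K) ≤ (1 - ε₁) * S :=
    mul_le_mul_of_nonneg_left hgood (by linarith)
  have h4 : ε₁ * T ≤ ε₁ * 2 := mul_le_mul_of_nonneg_left hmt he0.le
  have h5 : 1 / 4 - ε / 2 ≤
      (1 - ε₁) * (1 / 4 * (1 - ε₁) - ε₁ - Real.sqrt ε₁ * K) - ε₁ * 2 := by
    have h6 : 1 / 4 - ε₁ / 2 ≤ (1 - ε₁) * (1 / 4 * (1 - ε₁)) := by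
      nlinarith
    have h7 : (1 - ε₁) * (ε₁ + Real.sqrt ε₁ * K) ≤ ε₁ + Real.sqrt ε₁ * K := by
      have : 0 ≤ ε₁ + Real.sqrt ε₁ * K := by positivity
      nlinarith
    nlinarith
  have h8 : N / 24 * (1 / 2 - ε) = N / 12 * (1 / 4 - ε / 2) := by ring
  rw [h8]
  apply mul_le_mul_of_nonneg_left _ (by positivity)
  linarith

/-- the total mass -/
theorem fk_mass {N : ℕ} [Fact N.Prime] {ι : Type} [Fintype ι] (f : ι → S2 N)
    (hinj : Function.Injective f) (hn : ∀ i, IsNew (f i)) {ν : ℝ} (hν0 : 0 < ν) (hν1 : ν < 1)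
    (hνe : Real.exp (8 * Real.pi * ν) ≤ 2) (hX : ((1 : ℕ) : ℝ) ≤ ν ^ 2 * N) {I : Finset ℕ}
    (hI : ∀ p ∈ I, p.Prime ∧ p < N) {P : Measure (ℕ → ℝ)} (hP : IsST I P) :
    ∑ i, om (f i) ≤ 2 := by
  have h := transfer f hinj hn hν0 hν1 (X := 1) le_rfl hX hI hP
    (G := fun _ => 0) ⟨fun _ => 0, fun m hm => absurd rfl hm, fun x => by simp⟩ 1
  have h4 : ∑ i, om (f i) * ((0 : ℝ) + 1 * se (f i)) ^ 2 = ∑ i, om (f i) := by
    refine Finset.sum_congr rfl fun i _ => ?_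
    have := fid_se (hn i)
    linear_combination om (f i) * this
  simp only [h4] at h
  refine h.trans ?_
  simpa using hνe

/-- half of the twisted central values are large -/
theorem twist_half {ε : ℝ} (hε : 0 < ε) : ∃ κ₁ : ℝ, 0 < κ₁ ∧ ∀ δ : ℝ, 0 < δ → ∃ N₀ : ℕ,
    ∀ (N : ℕ) [Fact N.Prime], N₀ ≤ N → ∀ (q : ℕ) [NeZero q] (χ : DirichletCharacter ℂ q),
    PQ χ → (q : ℝ) ≤ (N : ℝ) ^ κ₁ → χ (-(N : ZMod q)) = 1 →
      (N : ℝ) / 24 * (1 / 2 - ε) ≤ ({f : S2 N | (IsNew f ∧ co f N = 1) ∧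
        Real.log N ^ (-(1 / 2 + δ)) ≤ |bx χ f|}.ncard : ℝ) := by
  classical
  obtain ⟨C₄, hC₄⟩ := nat_sharp
  obtain ⟨C, hC1, hCC⟩ : ∃ C : ℝ, 1 ≤ C ∧ C₄ ≤ C := ⟨max 1 C₄, le_max_left _ _, le_max_right _ _⟩
  set K : ℝ := Real.sqrt (2 * Real.sqrt C) with hK
  have hK0 : 0 ≤ K := Real.sqrt_nonneg _
  obtain ⟨ε₁, he0, he1, he2⟩ := fk_eps hε hK0
  obtain ⟨z, A, hA, hAs, hAI, N₁, hs1⟩ := hC₄ ε₁ he0
  obtain ⟨κ₁, hκ₁, hfin0⟩ := final_harmC A (fun a => VV z / a)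
    (fun a ha => Nat.one_le_iff_ne_zero.mpr (hA a ha).1)
    (fun a => div_nonneg (fid_VV z) (Nat.cast_nonneg a)) he0
  refine ⟨κ₁, hκ₁, fun δ hδ => ?_⟩
  obtain ⟨N₂, hfin⟩ := hfin0 δ hδ
  obtain ⟨ν, hν0, hν1, hνe⟩ := fid_exp
  obtain ⟨N₃, hN₃⟩ := exists_nat_gt ((((A.sup id) ^ 2 + 1 : ℕ) : ℝ) / ν ^ 2)
  obtain ⟨_, _, hnf⟩ := new_fin
  refine ⟨max (max N₁ N₂) (max N₃ (z + 1)), fun N _ hN q _ χ hPQ hqN hχ => ?_⟩
  have hN1 : N₁ ≤ N := le_trans (by simp) hN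
  have hN2 : N₂ ≤ N := le_trans (by simp) hN
  have hN3 : N₃ ≤ N := le_trans (by simp) hN
  have hNz : z < N := Nat.lt_of_succ_le (le_trans (by simp) hN)
  have hN0 : (0 : ℝ) < N := by exact_mod_cast (Fact.out : N.Prime).pos
  have hXN : (((A.sup id) ^ 2 + 1 : ℕ) : ℝ) ≤ ν ^ 2 * N := by
    have h1 : (((A.sup id) ^ 2 + 1 : ℕ) : ℝ) / ν ^ 2 ≤ N :=
      hN₃.le.trans (by exact_mod_cast hN3)
    rw [div_le_iff₀ (by positivity)] at h1
    linarith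
  have hF : {f : S2 N | IsNew f}.Finite := (hnf N).1
  have : Fintype {f : S2 N // IsNew f} := hF.fintype
  set f : {f : S2 N // IsNew f} → S2 N := fun i => i.1 with hf
  have hinj : Function.Injective f := Subtype.coe_injective
  have hn : ∀ i, IsNew (f i) := fun i => i.2
  have hall : AllNew f := ⟨hinj, fun g => ⟨fun hg => ⟨⟨g, hg⟩, rfl⟩, fun ⟨i, hi⟩ => hi ▸ i.2⟩⟩
  have hom : ∀ i, 0 ≤ om (f i) := fun i => (fid_om (hn i)).2.1.le
  have hPr : ∀ p ∈ Pr N, p.Prime ∧ p < N := by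
    intro p hp
    obtain ⟨h2, h3⟩ := Finset.mem_filter.mp hp
    exact ⟨h3, Finset.mem_range.mp h2⟩
  obtain ⟨P, hP⟩ := st_exists (Pr N) (fun p hp => (hPr p hp).1)
  have hHA := fid_ha hA hNz
  have hHA0 : ∀ x, 0 ≤ HA z A x := by
    intro x
    unfold HA
    exact Finset.sum_nonneg fun a _ => mul_nonneg (div_nonneg (fid_VV z) (Nat.cast_nonneg a))
      (sq_nonneg _)
  -- moments
  have hmass : ∑ i, om (f i) ≤ 2 := by
    refine fk_mass f hinj hn hν0 hν1 hνe ?_ hPr hP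
    refine le_trans ?_ hXN
    exact_mod_cast Nat.le_add_left 1 _
  have hsq : ∑ i, om (f i) * HA z A (la (f i)) ^ 2 ≤ 2 * Real.sqrt C := by
    have h := transfer f hinj hn hν0 hν1 (Nat.le_add_left 1 _) hXN hPr hP hHA 0
    have h4 : ∑ i, om (f i) * (HA z A (la (f i)) + 0 * se (f i)) ^ 2 =
        ∑ i, om (f i) * HA z A (la (f i)) ^ 2 := by simp only [zero_mul, add_zero]
    rw [h4] at h
    have h5 : ∫ x, HA z A x ^ 2 ∂P ≤ Real.sqrt C := by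
      apply Real.le_sqrt_of_sq_le
      refine (fid_four hP hHA).trans (((hAI (Pr N) (fun p hp => (hPr p hp).1) ?_ P hP).2).trans hCC)
      intro p hp hpz
      exact Finset.mem_filter.mpr ⟨Finset.mem_range.mpr (by omega), hp⟩
    have h6 : 0 ≤ ∫ x, HA z A x ^ 2 ∂P := integral_nonneg fun x => sq_nonneg _
    calc _ ≤ _ := h
      _ ≤ 2 * (Real.sqrt C + 0 ^ 2) := by
        apply mul_le_mul hνe _ (by positivity) (by norm_num)
        linarith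
      _ = _ := by ring
  -- the sets
  obtain ⟨t, ht, htsum⟩ := hfin N hN2 f hall q χ hPQ hqN hχ
  set s : Finset {f : S2 N // IsNew f} := Finset.univ.filter
    (fun i => 4 * Real.pi * nr (f i) < N / 12 * ((1 - ε₁) * HA z A (la (f i)) - ε₁)) with hs
  have hsm : ∑ i ∈ s, om (f i) ≤ ε₁ :=
    hs1 N hN1 f hinj hn s (fun i hi => (Finset.mem_filter.mp hi).2)
  have htsum' : 1 / 4 * (1 - ε₁) - ε₁ ≤ ∑ i ∈ t, om (f i) * HA z A (la (f i)) := by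
    have h1 : ∑ a ∈ A, VV z / (a : ℝ) = VV z * ∑ a ∈ A, 1 / (a : ℝ) := by
      rw [Finset.mul_sum]
      exact Finset.sum_congr rfl fun a _ => by ring
    have h2 : 1 / 4 * (∑ a ∈ A, VV z / (a : ℝ)) - ε₁ ≤
        ∑ i ∈ t, om (f i) * HA z A (la (f i)) := htsum
    rw [h1] at h2
    linarith
  have hbad : ∑ i ∈ s, om (f i) * HA z A (la (f i)) ≤ Real.sqrt ε₁ * K := by
    refine fid_cs s (fun i => om (f i)) (fun i => HA z A (la (f i))) hom hsm ?_ he0.le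
    refine le_trans ?_ hsq
    exact Finset.sum_le_sum_of_subset_of_nonneg (Finset.subset_univ _)
      fun i _ _ => mul_nonneg (hom i) (sq_nonneg _)
  have hgood : 1 / 4 * (1 - ε₁) - ε₁ - Real.sqrt ε₁ * K ≤
      ∑ i ∈ t \ s, om (f i) * HA z A (la (f i)) := by
    have h1 := Finset.sum_sdiff_sub_sum_sdiff (s₁ := t) (s₂ := s)
      (f := fun i => om (f i) * HA z A (la (f i)))
    have h2 : 0 ≤ ∑ i ∈ s \ t, om (f i) * HA z A (la (f i)) :=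
      Finset.sum_nonneg fun i _ => mul_nonneg (hom i) (hHA0 _)
    linarith
  have hmt : ∑ i ∈ t \ s, om (f i) ≤ 2 :=
    (Finset.sum_le_sum_of_subset_of_nonneg (Finset.subset_univ _) fun i _ _ => hom i).trans hmass
  have hcard : (N : ℝ) / 12 * ((1 - ε₁) * ∑ i ∈ t \ s, om (f i) * HA z A (la (f i)) -
      ε₁ * ∑ i ∈ t \ s, om (f i)) ≤ (t \ s).card := by
    calc (N : ℝ) / 12 * ((1 - ε₁) * ∑ i ∈ t \ s, om (f i) * HA z A (la (f i)) -
          ε₁ * ∑ i ∈ t \ s, om (f i)) =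
        ∑ i ∈ t \ s, (N : ℝ) / 12 * ((1 - ε₁) * HA z A (la (f i)) - ε₁) * om (f i) := by
          rw [Finset.mul_sum, Finset.mul_sum, ← Finset.sum_sub_distrib, Finset.mul_sum]
          exact Finset.sum_congr rfl fun i _ => by ring
      _ ≤ ∑ i ∈ t \ s, 1 := by
          refine Finset.sum_le_sum fun i hi => ?_
          obtain ⟨h6, h7, h8⟩ := fid_om (hn i)
          have h9 : i ∉ s := (Finset.mem_sdiff.mp hi).2
          have h10 : (N : ℝ) / 12 * ((1 - ε₁) * HA z A (la (f i)) - ε₁) ≤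
              4 * Real.pi * nr (f i) := by
            by_contra hcon
            push Not at hcon
            exact h9 (Finset.mem_filter.mpr ⟨Finset.mem_univ _, hcon⟩)
          exact (mul_le_mul_of_nonneg_right h10 h7.le).trans h8.le
      _ = (t \ s).card := by simp
  have hfinal : (N : ℝ) / 24 * (1 / 2 - ε) ≤ (t \ s).card :=
    (fk_num hN0.le he0 he1 hK0 he2 hgood hmt).trans hcard
  refine hfinal.trans ?_
  norm_cast
  rw [← Finset.card_image_of_injective (t \ s) hinj, ← Set.ncard_coe_finset]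
  apply Set.ncard_le_ncard
  · intro g hg
    obtain ⟨i, hi, rfl⟩ := Finset.mem_image.mp (Finset.mem_coe.mp hg)
    obtain ⟨h7, h8⟩ := ht i (Finset.mem_sdiff.mp hi).1
    exact ⟨⟨hn i, h7⟩, h8⟩
  · exact hF.subset fun g hg => hg.1.1

end Pool.Agent.TK
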